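import Pool.Agent.H249R3.Ckt.Null
import Pool.Agent.H249R3.Ckt.NonNull

set_option autoImplicit false

/-!
# How many oracles make exponential time easy for circuits of subexponential size?

For every gauge `f`, the set of the oracles relative to which no language in `E` requires circuits
of exponential size is a null set for `f` if and only if for some `C` and all large `N` there is
`M ≥ N` with `f M ≤ (log N) ^ C`.
-/

namespace Pool.Agent.Results.MP_5f97e6_lc.GaugeThreshold

open Pool.Agent.NPC Pool.Agent.H620R2.Gauge Pool.Agent.H622R2.Ckt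
open Pool.Agent.H622R2.Exp (Lin InTime)

/-- Relative to `A`, some language in `E` requires circuits (with gates for `A`) of exponential
size: for some `ε > 0` and all large `n`, no circuit of size less than `2 ^ (ε n)` decides it on the
inputs of length `n`. -/
def HasHard (A : Oracle) : Prop :=
  ∃ L : Set (List Bool), InTime Lin A L ∧ ∃ ε : ℝ, 0 < ε ∧
    ∀ᶠ n : ℕ in Filter.atTop, ¬ Small A L (2 ^ (ε * n)) n

theorem result (f : ℕ → ℝ) :
    Null f {A : Oracle | ¬ HasHard A} ↔
      ∃ C : ℕ, ∀ᶠ N : ℕ in Filter.atTop, ∃ M ≥ N, f M ≤ (Real.logb 2 N) ^ C := by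
  have hset : {A : Oracle | ¬ HasHard A} = {A : Oracle | ∀ L, InTime Lin A L →
      ∀ ε : ℝ, 0 < ε → ∃ᶠ n : ℕ in Filter.atTop, Small A L (2 ^ (ε * n)) n} := by
    ext A
    simp only [HasHard, Set.mem_ofPred_eq, not_exists, not_and, Filter.not_eventually, not_not]
  rw [hset]
  constructor
  · intro hn
    by_contra hcon
    refine Pool.Agent.H249R3.Ckt.not_null_ckt (f := f) ?_ _ (fun A hA => hA) hn
    intro C
    by_contra hC
    apply hcon
    refine ⟨C, ?_⟩
    rw [Filter.not_frequently] at hC
    refine hC.mono fun N hN => ?_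
    push Not at hN
    exact hN
  · rintro ⟨C, hC⟩
    exact Pool.Agent.H249R3.Ckt.null_ckt hC

end Pool.Agent.Results.MP_5f97e6_lc.GaugeThreshold
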